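import Mathlib

/-!
# A connected noninvolutory quandle with two good involutions

The quandle is the product of two quandles: the `12` matrices `A` in `GL₂(𝔽₃)` with trace `0` and
determinant `-1`, under conjugation (`A² = 1`, so both `id` and `A ↦ -A` are good involutions of this
connected, involutory quandle); and the six elements of order four of `S₄`, or the six points `± eᵢ` of
the sphere with the rotations by a right angle (connected, noninvolutory, with the good involution
`v ↦ -v`). The first one is listed as the set of the vectors `v = (a, b, c)` in `𝔽₃³` with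
`a² + b c = 1`, with `v * w = ⟨v, w⟩ w - v`, where `⟨v, w⟩ = 2 a a' + b c' + c b'`.
-/

set_option autoImplicit false

namespace Pool.Agent.Results.MP_f5f603_al.TwoGoodInvolutions

/-- `op x y = x * y` is a quandle operation on `R`: (i) `x * x = x`; (ii) the right translation
`x ↦ x * y` is a bijection; (iii) `(x * y) * z = (x * z) * (y * z)`. -/
structure IsQuandle {R : Type} (op : R → R → R) : Prop where
  idem : ∀ x, op x x = x
  bij : ∀ y, Function.Bijective (fun x => op x y)
  distrib : ∀ x y z, op (op x y) z = op (op x z) (op y z)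

/-- The right translation `s_y : x ↦ x * y`, as a permutation of `R`. -/
noncomputable def translation {R : Type} {op : R → R → R} (h : IsQuandle op) (y : R) :
    Equiv.Perm R :=
  Equiv.ofBijective (fun x => op x y) (h.bij y)

/-- The quandle is connected: the group generated by the right translations is transitive. -/
def IsConnected {R : Type} {op : R → R → R} (h : IsQuandle op) : Prop :=
  ∀ x y : R, ∃ g ∈ Subgroup.closure (Set.range (translation h)), g x = y

/-- The quandle is involutory: `s_y ^ 2 = 1` for all `y`. -/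
def IsInvolutory {R : Type} {op : R → R → R} (h : IsQuandle op) : Prop :=
  ∀ y : R, translation h y ^ 2 = 1

/-- `ρ` is a good involution: `ρ (ρ x) = x`, `ρ (x * y) = ρ x * y`, and `s_{ρ y} = s_y⁻¹`. -/
structure IsGoodInvolution {R : Type} {op : R → R → R} (h : IsQuandle op) (ρ : R → R) : Prop where
  invol : ∀ x, ρ (ρ x) = x
  map_op : ∀ x y, ρ (op x y) = op (ρ x) y
  translation_map : ∀ y, translation h (ρ y) = (translation h y)⁻¹

/-- The multiplication table of the first quandle. -/
def op1 (x y : Fin 12) : Fin 12 := Fin.ofNat 12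
  (177106980748284138433943962316516052591529783135119522911854137085955644049386062919496297956649755279511954868748597196572502832753005702636680404490911077240289299345924352
    >>> (4 * (12 * x.val + y.val)) % 16)

/-- The multiplication table of the second quandle. -/
def op2 (x y : Fin 6) : Fin 6 := Fin.ofNat 6
  (7404951401369814082676082890918608554312960 >>> (4 * (6 * x.val + y.val)) % 16)

/-- The map `A ↦ -A` on the first quandle. -/
def neg1 : Fin 12 → Fin 12 := ![1, 0, 7, 9, 8, 11, 10, 2, 4, 3, 6, 5]

/-- The map `v ↦ -v` on the second quandle. -/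
def neg2 : Fin 6 → Fin 6 := ![1, 0, 3, 2, 5, 4]

/-- The product operation. -/
def op (x y : Fin 12 × Fin 6) : Fin 12 × Fin 6 := (op1 x.1 y.1, op2 x.2 y.2)

theorem idem1 : ∀ x, op1 x x = x := by decide +kernel
theorem invol1 : ∀ x y, op1 (op1 x y) y = x := by decide +kernel
theorem distrib1 : ∀ x y z, op1 (op1 x y) z = op1 (op1 x z) (op1 y z) := by decide +kernel
theorem neg1_neg1 : ∀ x, neg1 (neg1 x) = x := by decide +kernel
theorem neg1_op : ∀ x y, neg1 (op1 x y) = op1 (neg1 x) y := by decide +kernel
theorem op1_neg1 : ∀ x y, op1 x (neg1 y) = op1 x y := by decide +kernel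
theorem conn1 : ∀ x, ∃ y z, op1 (op1 0 y) z = x := by decide +kernel
theorem idem2 : ∀ x, op2 x x = x := by decide +kernel
theorem neg2_neg2 : ∀ x, neg2 (neg2 x) = x := by decide +kernel
theorem distrib2 : ∀ x y z, op2 (op2 x y) z = op2 (op2 x z) (op2 y z) := by decide +kernel
theorem neg2_op : ∀ x y, neg2 (op2 x y) = op2 (neg2 x) y := by decide +kernel
theorem op2_neg2 : ∀ x y, op2 (op2 x y) (neg2 y) = x := by decide +kernel
theorem op2_neg2' : ∀ x y, op2 (op2 x (neg2 y)) y = x := by decide +kernel
theorem conn2 : ∀ x, ∃ y z, op2 (op2 0 y) z = x := by decide +kernel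

theorem op_isQuandle : IsQuandle op where
  idem x := Prod.ext (idem1 _) (idem2 _)
  bij y := by
    have h1 : ∀ x, op (op x y) (y.1, neg2 y.2) = x := fun x =>
      Prod.ext (invol1 _ _) (op2_neg2 _ _)
    have h2 : ∀ x, op (op x (y.1, neg2 y.2)) y = x := fun x =>
      Prod.ext (invol1 _ _) (op2_neg2' _ _)
    exact Function.bijective_iff_has_inverse.2 ⟨fun x => op x (y.1, neg2 y.2), h1, h2⟩
  distrib x y z := Prod.ext (distrib1 _ _ _) (distrib2 _ _ _)

theorem translation_apply {R : Type} {op : R → R → R} (h : IsQuandle op) (x y : R) :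
    translation h y x = op x y := rfl

theorem connected : IsConnected op_isQuandle := by
  have h0 : ∀ x, ∃ g ∈ Subgroup.closure (Set.range (translation op_isQuandle)),
      g (0, 0) = x := by
    intro x
    obtain ⟨y1, z1, h1⟩ := conn1 x.1
    obtain ⟨y2, z2, h2⟩ := conn2 x.2
    refine ⟨translation op_isQuandle (z1, z2) * translation op_isQuandle (y1, y2),
      Subgroup.mul_mem _ (Subgroup.subset_closure ⟨_, rfl⟩) (Subgroup.subset_closure ⟨_, rfl⟩), ?_⟩
    rw [Equiv.Perm.mul_apply, translation_apply, translation_apply]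
    exact Prod.ext h1 h2
  intro x y
  obtain ⟨g, hg, hgx⟩ := h0 x
  obtain ⟨k, hk, hky⟩ := h0 y
  refine ⟨k * g⁻¹, Subgroup.mul_mem _ hk (Subgroup.inv_mem _ hg), ?_⟩
  rw [Equiv.Perm.mul_apply, ← hgx]
  show k (g.symm (g (0, 0))) = y
  rw [Equiv.symm_apply_apply, hky]

theorem good_aux (ρ1 : Fin 12 → Fin 12) (h1 : ∀ x, ρ1 (ρ1 x) = x)
    (h2 : ∀ x y, ρ1 (op1 x y) = op1 (ρ1 x) y) (h3 : ∀ x y, op1 x (ρ1 y) = op1 x y) :
    IsGoodInvolution op_isQuandle (fun x => (ρ1 x.1, neg2 x.2)) where
  invol x := Prod.ext (h1 _) (neg2_neg2 _)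
  map_op x y := Prod.ext (h2 _ _) (neg2_op _ _)
  translation_map y := by
    ext1 x
    rw [Equiv.Perm.eq_inv_iff_eq, translation_apply, translation_apply]
    refine Prod.ext ?_ (op2_neg2' _ _)
    show op1 (op1 x.1 (ρ1 y.1)) y.1 = x.1
    rw [h3, invol1]

/-- There is a finite connected quandle which is not involutory and which has two distinct good
involutions. -/
theorem result : ∃ (R : Type) (_ : Finite R) (op : R → R → R) (h : IsQuandle op),
    IsConnected h ∧ ¬ IsInvolutory h ∧
      ∃ ρ₁ ρ₂ : R → R, IsGoodInvolution h ρ₁ ∧ IsGoodInvolution h ρ₂ ∧ ρ₁ ≠ ρ₂ := by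
  refine ⟨Fin 12 × Fin 6, inferInstance, op, op_isQuandle, connected, fun h => ?_,
    fun x => (x.1, neg2 x.2), fun x => (neg1 x.1, neg2 x.2),
    good_aux id (fun _ => rfl) (fun _ _ => rfl) (fun _ _ => rfl),
    good_aux neg1 neg1_neg1 neg1_op op1_neg1, fun h => ?_⟩
  · have h1 := Equiv.Perm.congr_fun (h (0, 2)) (0, 0)
    rw [pow_two, Equiv.Perm.mul_apply, translation_apply, translation_apply,
      Equiv.Perm.one_apply] at h1
    exact absurd h1 (by decide +kernel)
  · have h1 := congrFun h (0, 0)
    exact absurd h1 (by decide +kernel)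

end Pool.Agent.Results.MP_f5f603_al.TwoGoodInvolutions
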